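import Pool.Agent.W46.AC.Stm

set_option autoImplicit false
set_option linter.unusedSectionVars false

/-! Comparison with the centred family, for all exponents, given the bound at `1 + 1.6752 / d`. -/

open MeasureTheory Set Filter Topology ENNReal NNReal Metric

namespace Pool.Agent.W962.AC

open Pool.Agent.H810R3.Tub Pool.Agent.W772 Pool.Agent.W46.AC

theorem rpow_le_max {e w : ℝ} (he : 0 < e) (hw0 : 0 ≤ w) (hw1 : w ≤ 1) : e ^ w ≤ max 1 e := by
  calc e ^ w ≤ (max 1 e) ^ w := Real.rpow_le_rpow he.le (le_max_right _ _) hw0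
    _ ≤ (max 1 e) ^ (1 : ℝ) := Real.rpow_le_rpow_of_exponent_le (le_max_left _ _) hw1
    _ = max 1 e := Real.rpow_one _

theorem le_rpow_self' {e r : ℝ} (he : 1 ≤ e) (hr : 1 ≤ r) : e ≤ e ^ r := by
  calc e = e ^ (1 : ℝ) := (Real.rpow_one _).symm
    _ ≤ e ^ r := Real.rpow_le_rpow_of_exponent_le he hr

/-- The upper bound of the interpolation. -/
theorem upp {M N e w r : ℝ} {d : ℕ} {q : ℝ} (hM : 0 < M) (hN : 0 < N) (he : 0 < e) (hw0 : 0 ≤ w)
    (hw1 : w ≤ 1) (hr : 1 + w * (q - 1) = r) :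
    (M * N ^ (d + 2)) ^ (1 - w) * (e * M ^ q * N ^ (d + 1)) ^ w
      ≤ max 1 e * M ^ r * N ^ ((d : ℝ) + 2 - w) := by
  have h1 : (M * N ^ (d + 2)) ^ (1 - w) = M ^ (1 - w) * N ^ (((d : ℝ) + 2) * (1 - w)) := by
    rw [Real.mul_rpow hM.le (by positivity), ← Real.rpow_natCast N, ← Real.rpow_mul hN.le]
    push_cast
    rfl
  have h2 : (e * M ^ q * N ^ (d + 1)) ^ w = e ^ w * M ^ (q * w) * N ^ (((d : ℝ) + 1) * w) := by
    rw [Real.mul_rpow (by positivity) (by positivity), Real.mul_rpow he.le (by positivity),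
      ← Real.rpow_mul hM.le, ← Real.rpow_natCast N, ← Real.rpow_mul hN.le]
    push_cast
    rfl
  have h3 : M ^ (1 - w) * M ^ (q * w) = M ^ r := by
    rw [← Real.rpow_add hM, ← hr]
    congr 1
    ring
  have h4 : N ^ (((d : ℝ) + 2) * (1 - w)) * N ^ (((d : ℝ) + 1) * w) = N ^ ((d : ℝ) + 2 - w) := by
    rw [← Real.rpow_add hN]
    congr 1
    ring
  rw [h1, h2]
  calc M ^ (1 - w) * N ^ (((d : ℝ) + 2) * (1 - w)) * (e ^ w * M ^ (q * w) * N ^ (((d : ℝ) + 1) * w))
      = e ^ w * (M ^ (1 - w) * M ^ (q * w))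
        * (N ^ (((d : ℝ) + 2) * (1 - w)) * N ^ (((d : ℝ) + 1) * w)) := by ring
    _ = e ^ w * M ^ r * N ^ ((d : ℝ) + 2 - w) := by rw [h3, h4]
    _ ≤ _ := by
      have := rpow_le_max he hw0 hw1
      gcongr

theorem low1 {M N e w r D v : ℝ} {d : ℕ} (hM : 0 < M) (hN : 0 < N) (hv : 0 < v) (hr : 1 ≤ r)
    (hD1 : 1 ≤ D) (hD : max 1 e * (2 ^ (d + 1) / v) ≤ D) :
    max 1 e * M ^ r * N ^ ((d : ℝ) + 2 - w)
      ≤ D ^ r * N ^ (1 - w) * (M ^ r * ((N / 2) ^ (d + 1) * v)) := by
  have h1 : N ^ ((d : ℝ) + 2 - w) = N ^ (1 - w) * N ^ (d + 1) := by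
    rw [← Real.rpow_natCast N, ← Real.rpow_add hN]
    congr 1
    push_cast
    ring
  have h2 : N ^ (d + 1) = (2 ^ (d + 1) / v) * ((N / 2) ^ (d + 1) * v) := by
    rw [div_pow]
    field_simp
  rw [h1, h2]
  calc max 1 e * M ^ r * (N ^ (1 - w) * (2 ^ (d + 1) / v * ((N / 2) ^ (d + 1) * v)))
      = (max 1 e * (2 ^ (d + 1) / v)) * N ^ (1 - w) * (M ^ r * ((N / 2) ^ (d + 1) * v)) := by ring
    _ ≤ D ^ r * N ^ (1 - w) * (M ^ r * ((N / 2) ^ (d + 1) * v)) := by
      have := hD.trans (le_rpow_self' hD1 hr)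
      gcongr

theorem low2 {M N e w r D b : ℝ} {d : ℕ} (hM : 0 < M) (hN : 0 < N) (hb : 0 < b) (hr : 1 ≤ r)
    (hD : max 1 e * max 1 b ≤ D) :
    max 1 e * M ^ r * N ^ ((d : ℝ) + 2 - w)
      ≤ D ^ r * N ^ (d * (r - 1) - w)
        * ((M * N ^ (d + 2)) ^ r * ((b * N ^ (2 * (d + 1))) ^ (r - 1))⁻¹) := by
  have hm1 : (1 : ℝ) ≤ max 1 e := le_max_left _ _
  have hm2 : (1 : ℝ) ≤ max 1 b := le_max_left _ _
  have hB : 0 < (b * N ^ (2 * (d + 1))) ^ (r - 1) := by positivity
  rw [← mul_assoc, ← div_eq_mul_inv, le_div_iff₀ hB]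
  have h1 : (b * N ^ (2 * (d + 1))) ^ (r - 1) = b ^ (r - 1) * N ^ ((2 * ((d : ℝ) + 1)) * (r - 1)) := by
    rw [Real.mul_rpow hb.le (by positivity), ← Real.rpow_natCast N, ← Real.rpow_mul hN.le]
    push_cast
    rfl
  have h2 : (M * N ^ (d + 2)) ^ r = M ^ r * N ^ (((d : ℝ) + 2) * r) := by
    rw [Real.mul_rpow hM.le (by positivity), ← Real.rpow_natCast N, ← Real.rpow_mul hN.le]
    push_cast
    rfl
  have h3 : N ^ ((d : ℝ) + 2 - w) * N ^ ((2 * ((d : ℝ) + 1)) * (r - 1))
      = N ^ (d * (r - 1) - w) * N ^ (((d : ℝ) + 2) * r) := by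
    rw [← Real.rpow_add hN, ← Real.rpow_add hN]
    congr 1
    ring
  have h4 : b ^ (r - 1) ≤ (max 1 b) ^ r := by
    calc b ^ (r - 1) ≤ (max 1 b) ^ (r - 1) :=
          Real.rpow_le_rpow hb.le (le_max_right _ _) (by linarith)
      _ ≤ (max 1 b) ^ r := Real.rpow_le_rpow_of_exponent_le hm2 (by linarith)
  have h5 : max 1 e * b ^ (r - 1) ≤ D ^ r := by
    calc max 1 e * b ^ (r - 1) ≤ (max 1 e) ^ r * (max 1 b) ^ r := by
          have := le_rpow_self' hm1 hr
          gcongr
      _ = (max 1 e * max 1 b) ^ r := by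
          rw [Real.mul_rpow (by positivity) (by positivity)]
      _ ≤ D ^ r := Real.rpow_le_rpow (by positivity) hD (by linarith)
  rw [h1, h2]
  calc max 1 e * M ^ r * N ^ ((d : ℝ) + 2 - w) * (b ^ (r - 1) * N ^ ((2 * ((d : ℝ) + 1)) * (r - 1)))
      = (max 1 e * b ^ (r - 1)) * M ^ r
        * (N ^ ((d : ℝ) + 2 - w) * N ^ ((2 * ((d : ℝ) + 1)) * (r - 1))) := by ring
    _ = (max 1 e * b ^ (r - 1)) * M ^ r
        * (N ^ (d * (r - 1) - w) * N ^ (((d : ℝ) + 2) * r)) := by rw [h3]
    _ ≤ D ^ r * M ^ r * (N ^ (d * (r - 1) - w) * N ^ (((d : ℝ) + 2) * r)) := by gcongr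
    _ = _ := by ring

theorem CMP : S_CMP := by
  intro d hd κ E hκ hE
  have hd1 : 1 ≤ d := by omega
  have hd0 : (0 : ℝ) < d := by exact_mod_cast hd1
  set q : ℝ := 1 + (16752 / 10000) / (d : ℝ) with hq
  have hq1 : 1 < q := by
    have : 0 < (16752 / 10000) / (d : ℝ) := by positivity
    rw [hq]; linarith
  have hq0 : 0 < q := by linarith
  set v : ℝ := wv d with hv
  have hv0 : 0 < v := wv_pos d
  set b : ℝ := (1 + (d : ℝ)) ^ (d + 1) * v with hb
  have hb0 : 0 < b := by positivity
  set e : ℝ := E * κ ^ (-(1 / (d : ℝ))) with he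
  have he0 : 0 < e := by positivity
  set D : ℝ := max 1 (max (max 1 e * (2 ^ (d + 1) / v)) (max 1 e * max 1 b)) with hD
  have hD1 : 1 ≤ D := le_max_left _ _
  have hDa : max 1 e * (2 ^ (d + 1) / v) ≤ D := (le_max_left _ _).trans (le_max_right _ _)
  have hDb : max 1 e * max 1 b ≤ D := (le_max_right _ _).trans (le_max_right _ _)
  refine ⟨D, hD1, ?_⟩
  intro ι _ _ N hN ω f hf a hcard hQi p hp
  have hN0 : 0 < N := by linarith
  have hD0 : 0 < D := by linarith
  have hwe : volume (ball (0 : Space d) 1) = ENNReal.ofReal v := by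
    rw [hv, wv, ENNReal.ofReal_toReal measure_ball_lt_top.ne]
  set M : ℝ := (Fintype.card ι : ℝ) with hM
  have hM0 : 0 < M := by
    have h1 : (0 : ℝ) < (Fintype.card ι : ℝ) := by
      have := Fintype.card_pos (α := ι)
      exact_mod_cast this
    exact h1
  -- the bound at the exponent `q` in the form `e M^q N^(d+1)`
  have hQi' : ∫⁻ y, Fb N ω f a y ^ q ≤ ENNReal.ofReal (e * M ^ q * N ^ (d + 1)) := by
    refine hQi.trans (ENNReal.ofReal_le_ofReal ?_)
    have h1 : M ^ (1 + (6752 / 10000) / (d : ℝ)) = M ^ q * M ^ (-(1 / (d : ℝ))) := by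
      rw [← Real.rpow_add hM0]
      congr 1
      rw [hq]
      ring
    have h2 : M ^ (-(1 / (d : ℝ))) ≤ κ ^ (-(1 / (d : ℝ))) * N⁻¹ := by
      have h3 : M ^ (-(1 / (d : ℝ))) ≤ (κ * N ^ d) ^ (-(1 / (d : ℝ))) :=
        Real.rpow_le_rpow_of_nonpos (by positivity) hcard (by
          have : 0 < 1 / (d : ℝ) := by positivity
          linarith)
      refine h3.trans (le_of_eq ?_)
      rw [Real.mul_rpow hκ.le (by positivity), ← Real.rpow_natCast N d, ← Real.rpow_mul hN0.le]
      congr 1
      rw [show (d : ℝ) * -(1 / (d : ℝ)) = -1 by field_simp, Real.rpow_neg_one]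
    rw [h1]
    calc E * (M ^ q * M ^ (-(1 / (d : ℝ)))) * N ^ (d + 2)
        ≤ E * (M ^ q * (κ ^ (-(1 / (d : ℝ))) * N⁻¹)) * N ^ (d + 2) := by gcongr
      _ = e * M ^ q * N ^ (d + 1) := by
        rw [he, pow_succ N (d + 1)]
        field_simp
  set Q : ℝ := e * M ^ q * N ^ (d + 1) with hQ
  have hQ0 : 0 < Q := by positivity
  set V : ℝ := M * N ^ (d + 2) with hV
  have hV0 : 0 < V := by positivity
  have hVa : ∫⁻ y, Fb N ω f a y = ENNReal.ofReal V := Fb_int hN hf a
  have hV0' : ∫⁻ y, Fb N ω f (fun _ => 0) y = ENNReal.ofReal V := Fb_int hN hf _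
  set B : ℝ := b * N ^ (2 * (d + 1)) with hB
  have hB0 : 0 < B := by positivity
  have hBv : volume (closedBall (0 : Space d) ((1 + d) * N ^ 2)) = ENNReal.ofReal B := by
    have : Nontrivial (Space d) := by
      apply Module.nontrivial_of_finrank_pos (R := ℝ)
      rw [finrank_space]
      omega
    rw [Measure.addHaar_closedBall _ _ (by positivity), finrank_space, hwe,
      ← ENNReal.ofReal_mul (by positivity)]
    congr 1
    rw [hB, hb, mul_pow, ← pow_mul]
    ring
  have hbv : volume (ball (0 : Space d) (N / 2)) = ENNReal.ofReal ((N / 2) ^ (d + 1) * v) := by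
    rw [Measure.addHaar_ball_of_pos _ _ (by positivity), finrank_space, hwe,
      ← ENNReal.ofReal_mul (by positivity)]
  have hFm := Fb_measurable N ω f a
  have hFm0 := Fb_measurable N ω f (fun _ => (0 : Space d))
  have hball : ∀ y ∈ ball (0 : Space d) (N / 2), Fb N ω f (fun _ => (0 : Space d)) y = ENNReal.ofReal M := by
    intro y hy
    unfold Fb
    rw [Finset.sum_congr rfl (fun i _ => indicator_of_mem (ball_sub_box hN (hf i) hy) _)]
    simp [hM]
  have hFc : ∀ y, Fb N ω f a y ≤ ENNReal.ofReal M := by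
    intro y
    refine (Fb_le N ω f a y).trans (le_of_eq ?_)
    rw [hM, ENNReal.ofReal_natCast]
  have hg0 : 0 ≤ gam d p := le_max_left _ _
  have hNg : 1 ≤ N ^ gam d p := Real.one_le_rpow hN hg0
  rcases eq_or_ne p ∞ with hpt | hpt
  · -- the case of the supremum norm
    have hD1e : (1 : ℝ≥0∞) ≤ ENNReal.ofReal (D * N ^ gam d p) := by
      rw [← ENNReal.ofReal_one]
      refine ENNReal.ofReal_le_ofReal ?_
      calc (1 : ℝ) = 1 * 1 := (one_mul 1).symm
        _ ≤ D * N ^ gam d p := mul_le_mul hD1 hNg zero_le_one hD0.le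
    rw [hpt] at hD1e ⊢
    rw [eLpNorm_exponent_top, eLpNorm_exponent_top]
    have h1 : eLpNormEssSup (fun y : Space d => ∑ i, (box N (nor (ω i)) (f i)
        (a i)).indicator (fun _ => (1 : ℝ)) y) volume ≤ ENNReal.ofReal M := by
      unfold eLpNormEssSup
      refine essSup_le_of_ae_le _ (Filter.Eventually.of_forall fun y => ?_)
      show ‖∑ i, (box N (nor (ω i)) (f i) (a i)).indicator (fun _ => (1 : ℝ)) y‖ₑ ≤ ENNReal.ofReal M
      rw [enorm_sum_box]
      exact hFc y
    have h2 : ENNReal.ofReal M ≤ eLpNormEssSup (fun y : Space d => ∑ i,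
        (box N (nor (ω i)) (f i) 0).indicator (fun _ => (1 : ℝ)) y) volume := by
      have h3 := ae_le_eLpNormEssSup (f := fun y : Space d => ∑ i,
        (box N (nor (ω i)) (f i) 0).indicator (fun _ => (1 : ℝ)) y) (μ := volume)
      have h4 : volume (ball (0 : Space d) (N / 2)) ≠ 0 := (measure_ball_pos _ _ (by positivity)).ne'
      obtain ⟨y, hy1, hy2⟩ : ∃ y ∈ ball (0 : Space d) (N / 2), ‖∑ i,
          (box N (nor (ω i)) (f i) 0).indicator (fun _ => (1 : ℝ)) y‖ₑ ≤ eLpNormEssSup (fun y : Space d => ∑ i,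
          (box N (nor (ω i)) (f i) 0).indicator (fun _ => (1 : ℝ)) y) volume := by
        by_contra hcon
        push Not at hcon
        apply h4
        refine measure_mono_null ?_ (ae_iff.1 h3)
        intro y hy
        exact not_le.2 (hcon y hy)
      have h5 := enorm_sum_box N ω f (fun _ => (0 : Space d)) y
      rw [h5, hball y hy1] at hy2
      exact hy2
    calc _ ≤ 1 * ENNReal.ofReal M := by rw [one_mul]; exact h1
      _ ≤ _ := mul_le_mul' hD1e h2
  · -- finite exponents
    have hp0 : p ≠ 0 := by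
      intro h
      rw [h] at hp
      exact absurd hp (by simp)
    set r : ℝ := p.toReal with hr
    have hr1 : 1 ≤ r := by
      rw [hr, ← ENNReal.toReal_one]
      exact ENNReal.toReal_mono hpt hp
    have hr0 : 0 < r := by linarith
    rw [eLpNorm_eq_lintegral_rpow_enorm_toReal hp0 hpt, eLpNorm_eq_lintegral_rpow_enorm_toReal hp0 hpt, ← hr]
    have e1 : ∫⁻ y : Space d, ‖∑ i, (box N (nor (ω i)) (f i) (a i)).indicator (fun _ => (1 : ℝ)) y‖ₑ ^ r =
        ∫⁻ y, Fb N ω f a y ^ r := by
      refine lintegral_congr fun y => ?_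
      rw [enorm_sum_box]
    have e2 : ∫⁻ y : Space d, ‖∑ i, (box N (nor (ω i)) (f i) 0).indicator (fun _ => (1 : ℝ)) y‖ₑ ^ r =
        ∫⁻ y, Fb N ω f (fun _ => 0) y ^ r := by
      refine lintegral_congr fun y => ?_
      rw [← enorm_sum_box]
    rw [e1, e2]
    -- the first lower bound
    have hlow1 : ENNReal.ofReal (M ^ r * ((N / 2) ^ (d + 1) * v)) ≤ ∫⁻ y, Fb N ω f (fun _ => 0) y ^ r := by
      calc ENNReal.ofReal (M ^ r * ((N / 2) ^ (d + 1) * v))
          = ENNReal.ofReal (M ^ r) * volume (ball (0 : Space d) (N / 2)) := by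
            rw [hbv, ENNReal.ofReal_mul (by positivity)]
        _ = ∫⁻ _ in ball (0 : Space d) (N / 2), ENNReal.ofReal (M ^ r) := by
            rw [setLIntegral_const]
        _ = ∫⁻ y in ball (0 : Space d) (N / 2), Fb N ω f (fun _ => 0) y ^ r := by
            refine setLIntegral_congr_fun measurableSet_ball fun y hy => ?_
            rw [hball y hy, ENNReal.ofReal_rpow_of_pos hM0]
        _ ≤ _ := setLIntegral_le_lintegral _ _
    -- the second lower bound
    have hlow2 : ENNReal.ofReal (V ^ r * (B ^ (r - 1))⁻¹) ≤ ∫⁻ y, Fb N ω f (fun _ => 0) y ^ r := by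
      have h2 := lower (μ := (volume : Measure (Space d))) hFm0 (B := closedBall (0 : Space d) ((1 + d) * N ^ 2))
        measurableSet_closedBall (by
          intro y hy
          unfold Fb
          apply Finset.sum_eq_zero
          intro i _
          exact indicator_of_notMem (fun h => hy (box_sub_ball hN (hf i) h)) _) hr1
      rw [hV0', hBv, ENNReal.ofReal_rpow_of_pos hV0, ENNReal.ofReal_rpow_of_pos hB0] at h2
      have hBr : 0 < B ^ (r - 1) := Real.rpow_pos_of_pos hB0 _
      rw [← div_eq_mul_inv, ENNReal.ofReal_div_of_pos hBr]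
      exact ENNReal.div_le_of_le_mul h2
    have hDN : (D * N ^ gam d p) ^ r = D ^ r * N ^ (gam d p * r) := by
      rw [Real.mul_rpow hD0.le (by positivity), ← Real.rpow_mul hN0.le]
    have key : ∫⁻ y, Fb N ω f a y ^ r ≤ ENNReal.ofReal ((D * N ^ gam d p) ^ r) *
        ∫⁻ y, Fb N ω f (fun _ => 0) y ^ r := by
      rcases le_total r q with hrq | hrq
      · -- small exponents
        have h1 := interp (μ := (volume : Measure (Space d))) hFm hq1 hr1 hrq
        set w : ℝ := (r - 1) / (q - 1) with hw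
        have hq1' : 0 < q - 1 := by linarith
        have hw0 : 0 ≤ w := div_nonneg (by linarith) hq1'.le
        have hw1 : w ≤ 1 := by
          rw [hw, div_le_one hq1']
          linarith
        have hwr : 1 + w * (q - 1) = r := by
          rw [hw, div_mul_cancel₀ _ hq1'.ne']
          ring
        have hwd : w = d * (r - 1) / (16752 / 10000) := by
          rw [hw, hq]
          field_simp
          ring
        have hX : ∫⁻ y, Fb N ω f a y ^ r ≤
            ENNReal.ofReal (max 1 e * M ^ r * N ^ ((d : ℝ) + 2 - w)) := by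
          calc ∫⁻ y, Fb N ω f a y ^ r
              ≤ (∫⁻ y, Fb N ω f a y) ^ (1 - w) * (∫⁻ y, Fb N ω f a y ^ q) ^ w := h1
            _ ≤ (ENNReal.ofReal V) ^ (1 - w) * (ENNReal.ofReal Q) ^ w := by
                rw [hVa]
                exact mul_le_mul' le_rfl (ENNReal.rpow_le_rpow hQi' hw0)
            _ = ENNReal.ofReal (V ^ (1 - w) * Q ^ w) := by
                rw [ENNReal.ofReal_rpow_of_pos hV0, ENNReal.ofReal_rpow_of_pos hQ0,
                  ← ENNReal.ofReal_mul (by positivity)]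
            _ ≤ _ := ENNReal.ofReal_le_ofReal (upp hM0 hN0 he0 hw0 hw1 hwr)
        have hg1 : (1 - (1 - 1 / r) * ((d : ℝ) + 16752 / 10000) / (16752 / 10000)) * r = 1 - w := by
          rw [hwd]
          field_simp
          ring
        have hg2 : ((d : ℝ) * (1 - 1 / (16752 / 10000)) * (1 - 1 / r)) * r = d * (r - 1) - w := by
          rw [hwd]
          field_simp
        have hgam : gam d p = max 0 (min ((d : ℝ) * (1 - 1 / (16752 / 10000)) * (1 - 1 / r))
            (1 - (1 - 1 / r) * ((d : ℝ) + 16752 / 10000) / (16752 / 10000))) := rfl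
        rcases le_total ((d : ℝ) * (1 - 1 / (16752 / 10000)) * (1 - 1 / r))
            (1 - (1 - 1 / r) * ((d : ℝ) + 16752 / 10000) / (16752 / 10000)) with hmin | hmin
        · rw [min_eq_left hmin] at hgam
          have hexp : d * (r - 1) - w ≤ gam d p * r := by
            rw [← hg2, hgam]
            exact mul_le_mul_of_nonneg_right (le_max_right _ _) hr0.le
          refine hX.trans ?_
          calc ENNReal.ofReal (max 1 e * M ^ r * N ^ ((d : ℝ) + 2 - w))
              ≤ ENNReal.ofReal (D ^ r * N ^ (d * (r - 1) - w) * (V ^ r * (B ^ (r - 1))⁻¹)) :=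
                ENNReal.ofReal_le_ofReal (low2 hM0 hN0 hb0 hr1 hDb)
            _ ≤ ENNReal.ofReal ((D * N ^ gam d p) ^ r * (V ^ r * (B ^ (r - 1))⁻¹)) := by
                apply ENNReal.ofReal_le_ofReal
                rw [hDN]
                refine mul_le_mul_of_nonneg_right ?_ (by positivity)
                exact mul_le_mul_of_nonneg_left (Real.rpow_le_rpow_of_exponent_le hN hexp)
                  (by positivity)
            _ = ENNReal.ofReal ((D * N ^ gam d p) ^ r) * ENNReal.ofReal (V ^ r * (B ^ (r - 1))⁻¹) :=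
                ENNReal.ofReal_mul (by positivity)
            _ ≤ _ := mul_le_mul' le_rfl hlow2
        · rw [min_eq_right hmin] at hgam
          have hexp : 1 - w ≤ gam d p * r := by
            rw [← hg1, hgam]
            exact mul_le_mul_of_nonneg_right (le_max_right _ _) hr0.le
          refine hX.trans ?_
          calc ENNReal.ofReal (max 1 e * M ^ r * N ^ ((d : ℝ) + 2 - w))
              ≤ ENNReal.ofReal (D ^ r * N ^ (1 - w) * (M ^ r * ((N / 2) ^ (d + 1) * v))) :=
                ENNReal.ofReal_le_ofReal (low1 hM0 hN0 hv0 hr1 hD1 hDa)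
            _ ≤ ENNReal.ofReal ((D * N ^ gam d p) ^ r * (M ^ r * ((N / 2) ^ (d + 1) * v))) := by
                apply ENNReal.ofReal_le_ofReal
                rw [hDN]
                refine mul_le_mul_of_nonneg_right ?_ (by positivity)
                exact mul_le_mul_of_nonneg_left (Real.rpow_le_rpow_of_exponent_le hN hexp)
                  (by positivity)
            _ = ENNReal.ofReal ((D * N ^ gam d p) ^ r)
                * ENNReal.ofReal (M ^ r * ((N / 2) ^ (d + 1) * v)) :=
                ENNReal.ofReal_mul (by positivity)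
            _ ≤ _ := mul_le_mul' le_rfl hlow1
      · -- large exponents
        have h1 : ∫⁻ y, Fb N ω f a y ^ r ≤ ENNReal.ofReal (M ^ (r - q) * Q) := by
          calc ∫⁻ y, Fb N ω f a y ^ r ≤ ∫⁻ y, ENNReal.ofReal (M ^ (r - q)) * Fb N ω f a y ^ q := by
                refine lintegral_mono fun y => ?_
                simp only
                have e3 : Fb N ω f a y ^ r = Fb N ω f a y ^ (r - q) * Fb N ω f a y ^ q := by
                  rw [← ENNReal.rpow_add_of_nonneg _ _ (by linarith) hq0.le, sub_add_cancel]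
                rw [e3, ← ENNReal.ofReal_rpow_of_pos hM0]
                exact mul_le_mul' (ENNReal.rpow_le_rpow (hFc y) (by linarith)) le_rfl
            _ = ENNReal.ofReal (M ^ (r - q)) * ∫⁻ y, Fb N ω f a y ^ q :=
                lintegral_const_mul' _ _ ENNReal.ofReal_ne_top
            _ ≤ ENNReal.ofReal (M ^ (r - q)) * ENNReal.ofReal Q := mul_le_mul' le_rfl hQi'
            _ = _ := (ENNReal.ofReal_mul (by positivity)).symm
        have h3 : M ^ (r - q) * Q ≤ (D * N ^ gam d p) ^ r * (M ^ r * ((N / 2) ^ (d + 1) * v)) := by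
          have h5 : M ^ (r - q) * M ^ q = M ^ r := by
            rw [← Real.rpow_add hM0, sub_add_cancel]
          have h6 : N ^ (d + 1) = (2 ^ (d + 1) / v) * ((N / 2) ^ (d + 1) * v) := by
            rw [div_pow]
            field_simp
          have h7 : e * (2 ^ (d + 1) / v) ≤ (D * N ^ gam d p) ^ r := by
            calc e * (2 ^ (d + 1) / v) ≤ max 1 e * (2 ^ (d + 1) / v) := by
                  gcongr
                  exact le_max_right _ _
              _ ≤ D := hDa
              _ = D * 1 := (mul_one D).symm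
              _ ≤ D * N ^ gam d p := by gcongr
              _ ≤ (D * N ^ gam d p) ^ r := le_rpow_self' (by
                  calc (1 : ℝ) = 1 * 1 := (one_mul 1).symm
                    _ ≤ D * N ^ gam d p := mul_le_mul hD1 hNg zero_le_one hD0.le) hr1
          calc M ^ (r - q) * Q = (M ^ (r - q) * M ^ q) * (e * N ^ (d + 1)) := by rw [hQ]; ring
            _ = M ^ r * (e * N ^ (d + 1)) := by rw [h5]
            _ = (e * (2 ^ (d + 1) / v)) * (M ^ r * ((N / 2) ^ (d + 1) * v)) := by
                conv_lhs => rw [h6]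
                ring
            _ ≤ _ := by gcongr
        calc ∫⁻ y, Fb N ω f a y ^ r ≤ ENNReal.ofReal (M ^ (r - q) * Q) := h1
          _ ≤ ENNReal.ofReal ((D * N ^ gam d p) ^ r * (M ^ r * ((N / 2) ^ (d + 1) * v))) :=
              ENNReal.ofReal_le_ofReal h3
          _ = ENNReal.ofReal ((D * N ^ gam d p) ^ r) * ENNReal.ofReal (M ^ r * ((N / 2) ^ (d + 1) * v)) :=
              ENNReal.ofReal_mul (by positivity)
          _ ≤ _ := mul_le_mul' le_rfl hlow1
    have hpos : 0 < D * N ^ gam d p := by positivity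
    calc (∫⁻ y, Fb N ω f a y ^ r) ^ (1 / r)
        ≤ (ENNReal.ofReal ((D * N ^ gam d p) ^ r) * ∫⁻ y, Fb N ω f (fun _ => 0) y ^ r) ^ (1 / r) :=
          ENNReal.rpow_le_rpow key (by positivity)
      _ = ENNReal.ofReal (D * N ^ gam d p) * (∫⁻ y, Fb N ω f (fun _ => 0) y ^ r) ^ (1 / r) := by
          rw [ENNReal.mul_rpow_of_nonneg _ _ (by positivity), ENNReal.ofReal_rpow_of_pos (by positivity),
            ← Real.rpow_mul hpos.le, mul_one_div_cancel hr0.ne', Real.rpow_one]

end Pool.Agent.W962.AC
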